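import Mathlib
import Pool.Agent.TH932.S2.G.Sig
import Pool.Agent.TH932.S2.G.Tab

set_option autoImplicit false

/-!
# Large total stopping times of the 5x+1 map and block complexity
-/

namespace Pool.Agent.Results.MP_0baeaf_nt.LargeTimesSuperlinear

open Filter Topology Pool.Agent.TH932.Words Pool.Agent.TH932.S2

/-- the `5x+1` map -/
def T (n : ℕ) : ℕ := if n % 2 = 0 then n / 2 else (5 * n + 1) / 2

/-- the total stopping time of `n` is `k` -/
def HasTime (n k : ℕ) : Prop := T^[k] n = 1 ∧ ∀ j < k, T^[j] n ≠ 1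

/-- the number of different blocks of `N` consecutive parities among the first `h` terms of the
trajectory of `n` -/
noncomputable def blocksUpTo (n h N : ℕ) : ℕ :=
  ((fun i : ℕ => fun j : Fin N => T^[i + j] n % 2) '' {i | i + N ≤ h}).ncard

/-- there is an interval `[m, R m]` below `log n`, with `m ≥ R`, such that for all integers `N`
in it more than `A N` different blocks of `N` consecutive parities occur among the first
`K log n` terms of the trajectory of `n` -/
def ManyBlocks (A R : ℝ) (K n : ℕ) : Prop :=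
  ∃ m : ℕ, 1 ≤ m ∧ R ≤ m ∧ R * m ≤ Real.log n ∧
    ∀ N : ℕ, m ≤ N → (N : ℝ) ≤ R * m → A * N < blocksUpTo n ⌊K * Real.log n⌋₊ N

/-- the affine maps -/
def D : F.Dt (ZMod 2) := G.Tb.T 5 (by norm_num) (by norm_num)

/-- the map on the integers -/
def Gi (y : ℤ) : ℤ := if y % 2 = 0 then y / 2 else (5 * y + 1) / 2

lemma mp : F.Mp D 1 G.Tb.f Gi := by
  have h := G.Tb.mp (q := 5) (by norm_num) (by norm_num) (k := 1) (by norm_num)
  exact ⟨h.hd, h.hG⟩

lemma G_iter (n k : ℕ) : ((T^[k] n : ℕ) : ℤ) = Gi^[k] (n : ℤ) := by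
  induction k with
  | zero => rfl
  | succ k ih =>
    rw [Function.iterate_succ_apply', Function.iterate_succ_apply', ← ih]
    rcases Nat.mod_two_eq_zero_or_one (T^[k] n) with h | h
    · rw [T, if_pos h, Gi, if_pos (by omega)]
      push_cast
      rfl
    · rw [T, if_neg (by omega), Gi, if_neg (by omega)]
      push_cast
      rfl

/-- the parities, for natural numbers and for integers -/
lemma wc_le (n H N : ℕ) : F.wc (F.wd G.Tb.f Gi (n : ℤ)) H N ≤ blocksUpTo n H N := by
  unfold F.wc blocksUpTo
  have e : (fun i : ℕ => fac (F.wd G.Tb.f Gi (n : ℤ)) N i) =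
      (fun v : Fin N → ℕ => fun j => ((v j : ℕ) : ZMod 2)) ∘
        (fun i : ℕ => fun j : Fin N => T^[i + j] n % 2) := by
    funext i j
    simp only [Function.comp_apply, fac, F.wd, G.Tb.f]
    rw [← G_iter, ZMod.natCast_mod, Int.cast_natCast]
  rw [e, Set.image_comp]
  apply Set.ncard_image_le
  apply Set.Finite.subset
    (Set.finite_univ.image (fun v : Fin N → Fin 2 => fun j => ((v j : Fin 2) : ℕ)))
  rintro _ ⟨i, _, rfl⟩
  exact ⟨fun j => ⟨T^[i + j] n % 2, Nat.mod_lt _ (by norm_num)⟩, trivial, rfl⟩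

/-- **Result.** For all real numbers `A` and `R` there is `K` such that:

(1) if `n ≥ 1` and the first `K log n` terms of the trajectory of `n` are larger than `K`, then
there is an interval `[m, R m]` with `m ≥ R` and `R m ≤ log n` such that for all integers `N` in
this interval more than `A N` different blocks of `N` consecutive parities occur among the first
`K log n` terms;

(2) this conclusion also holds if `n ≥ 2` reaches `1` and its total stopping time is larger than
`K log n`. -/
theorem result (A R : ℝ) : ∃ K : ℕ, 1 ≤ K ∧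
    (∀ n : ℕ, 1 ≤ n → (∀ i : ℕ, (i : ℝ) ≤ K * Real.log n → K < T^[i] n) → ManyBlocks A R K n) ∧
    (∀ n k : ℕ, 2 ≤ n → HasTime n k → K * Real.log n < k → ManyBlocks A R K n) := by
  obtain ⟨K, hK1, h1, h2⟩ := G.desc_time D mp A R
  have habs : ∀ n : ℕ, |(((n : ℕ) : ℤ) : ℝ)| = n := fun n => by
    rw [Int.cast_natCast, abs_of_nonneg (by positivity)]
  refine ⟨K, hK1, fun n _ hn => ?_, fun n k hn hk hbig => ?_⟩
  · obtain ⟨m, a, b, c, d⟩ := h1 n (fun i hi => by
      rw [← G_iter, abs_of_nonneg (by positivity)]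
      rw [habs] at hi
      exact_mod_cast hn i hi)
    rw [habs] at c d
    exact ⟨m, a, b, c, fun N e f => (d N e f).trans_le (by exact_mod_cast wc_le n _ N)⟩
  · obtain ⟨m, a, b, c, d⟩ := h2 n k (by rw [abs_of_nonneg (by positivity)]; exact_mod_cast hn)
      ⟨by rw [← G_iter, hk.1]; rfl, fun j hj h => hk.2 j hj (by
        rw [← G_iter] at h
        exact_mod_cast h)⟩
      (by rw [habs]; exact hbig)
    rw [habs] at c d
    exact ⟨m, a, b, c, fun N e f => (d N e f).trans_le (by exact_mod_cast wc_le n _ N)⟩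

end Pool.Agent.Results.MP_0baeaf_nt.LargeTimesSuperlinear
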